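import Pool.Agent.Helper74.MU.BR2

/-!
# Modular homology of Krull dimension at least two: the twisted homomorphism
-/

set_option autoImplicit false

namespace Pool.Agent.Helper74.MX

open Pool.Agent.Helper74.MU Pool.Agent.Helper13.MS

/-- For every prime `p` any two elements `g, h` of `G` satisfy, acting by conjugation on `G'/G''`, a polynomial relation
`F(g, h) = 0`, `F ∈ ℤ[X, Y]` nonzero modulo `p`. -/
def ThinModP (G : Type) [Group G] : Prop := ∀ p : ℕ, p.Prime → ∀ g h : G, ∃ F : MvPolynomial (Fin 2) ℤ,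
  MvPolynomial.map (Int.castRingHom (ZMod p)) F ≠ 0 ∧
  ∀ a ∈ commutator G, (F.support.toList.map fun e => (g ^ (e 0) * h ^ (e 1) * a * (g ^ (e 0) * h ^ (e 1))⁻¹) ^ (F.coeff e)).prod ∈
    ⁅commutator G, commutator G⁆

lemma map_comm {G H : Type} [Group G] [Group H] (f : G →* H) {a : G} (ha : a ∈ commutator G) : f a ∈ commutator H := by
  have h1 : (commutator G).map f ≤ commutator H := by
    rw [commutator_def, Subgroup.map_commutator, commutator_def]
    exact Subgroup.commutator_mono le_top le_top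
  exact h1 ⟨a, ha, rfl⟩

/-- pull back of a twisted homomorphism -/
def comapT {G H K : Type} [Group G] [Group H] [Field K] (f : G →* H) (Tw : Twisted H K) : Twisted G K :=
  { χ := Tw.χ.comp f
    φ := fun g => Tw.φ (f g)
    φ_mul := by
      intro a ha b hb
      rw [map_mul]
      exact Tw.φ_mul _ (map_comm f ha) _ (map_comm f hb)
    φ_conj := by
      intro g a ha
      rw [map_mul, map_mul, map_inv]
      exact Tw.φ_conj _ _ (map_comm f ha) }

theorem twisted_of_not_thin {G : Type} [Group G] [Group.FG G] (h : ¬ ThinModP G) :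
    ∃ (K : Type) (_ : Field K) (Tw : Twisted G K), (∃ g ∈ commutator G, Tw.φ g ≠ 0) ∧
      ∃ g h : G, FreePlane (Tw.χ g : K) (Tw.χ h : K) := by
  set N : Subgroup G := ⁅commutator G, commutator G⁆ with hN
  set f : G →* G ⧸ N := QuotientGroup.mk' N with hf
  have hfs : Function.Surjective f := QuotientGroup.mk'_surjective N
  have hfg : Group.FG (G ⧸ N) := Group.fg_of_surjective hfs
  have hmap : (commutator G).map f = commutator (G ⧸ N) := by
    have h1 : (commutator G).map f = ⁅(⊤ : Subgroup G).map f, (⊤ : Subgroup G).map f⁆ := Subgroup.map_commutator ⊤ ⊤ f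
    rw [h1, ← MonoidHom.range_eq_map, MonoidHom.range_eq_top.2 hfs]
    rfl
  have hab : ∀ a ∈ commutator (G ⧸ N), ∀ b ∈ commutator (G ⧸ N), a * b = b * a := by
    intro a ha b hb
    rw [← hmap] at ha hb
    obtain ⟨a', ha', rfl⟩ := ha
    obtain ⟨b', hb', rfl⟩ := hb
    rw [← commute_iff_eq, ← commutatorElement_eq_one_iff_commute, ← map_commutatorElement]
    exact (QuotientGroup.eq_one_iff _).2 (Subgroup.commutator_mem_commutator ha' hb')
  have hB : ¬ RelB (commutator (G ⧸ N)) := by
    intro hB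
    apply h
    intro p hp g k
    obtain ⟨F, hF, hr⟩ := hB p hp (f g) (f k)
    refine ⟨F, hF, fun a ha => ?_⟩
    rw [← hN, ← QuotientGroup.eq_one_iff, ← QuotientGroup.mk'_apply, ← hf, map_list_prod, ← hr (f a) (map_comm f ha), List.map_map]
    rfl
  obtain ⟨K, iK, Tw, ⟨g, hg, hφ⟩, g₁, g₂, h12⟩ := twisted_of_not_relB hab hB
  rw [← hmap] at hg
  obtain ⟨g', hg', rfl⟩ := hg
  obtain ⟨k₁, rfl⟩ := hfs g₁
  obtain ⟨k₂, rfl⟩ := hfs g₂
  exact ⟨K, iK, comapT f Tw, ⟨g', hg', hφ⟩, k₁, k₂, h12⟩

end Pool.Agent.Helper74.MX
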