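import Pool.Agent.Helper13.MW.Main
import Pool.Agent.Helper13.MW.L3
import Pool.Agent.Helper13.MW.Q1b
import Pool.Agent.Helper13.MT.Br
import Pool.Agent.Helper13.MT.Q1a
import Pool.Agent.Helper13.MT.Q1c
import Pool.Agent.Helper74.MW.Final
import Pool.Agent.Helper74.MX.Pull

/-!
# MX: final assembly (every step law)
-/

set_option autoImplicit false

namespace Pool.Agent.Helper74.MX

open Pool.Agent.Helper13.MS Pool.Agent.Helper13.MW

/-- every finitely presented metabelian group has a speed exponent `0`, `1/2` or `1`; weighted families -/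
theorem metabelian_elw (G : Type) [Group G] [Group.IsFinitelyPresented G]
    (hab : ∀ a ∈ commutator G, ∀ b ∈ commutator G, a * b = b * a) :
    ∃ β : ℝ, (β = 0 ∨ β = 1 / 2 ∨ β = 1) ∧
      ∀ (Ω : Type) [Fintype Ω] [Nonempty Ω] (s : Ω → G) (σ : Ω ≃ Ω), (∀ ω, s (σ ω) = (s ω)⁻¹) →
        Subgroup.closure (Set.range s) = ⊤ → ∀ p : Ω → ℝ, Wt p σ →
        Filter.Tendsto (fun n : ℕ => Real.log (elw s p n) / Real.log n) Filter.atTop (nhds β) := by
  have hfg : Group.FG G := by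
    obtain ⟨n, φ, hφ, -⟩ := (inferInstance : Group.IsFinitelyPresented G).out
    exact Group.fg_of_surjective hφ
  by_cases hfd : FiniteDimensional ℚ (TensorProduct ℤ ℚ (Additive (Abelianization (commutator G))))
  swap
  · exact ⟨1, by simp, fun Ω _ _ s σ hσ hs p hp => Pool.Agent.Helper13.MW.main G hfd Ω s σ hσ hs p hp⟩
  by_cases hB : Pool.Agent.Helper74.MU.RelB (commutator G)
  swap
  · obtain ⟨K, _, Tw, hφ, g₁, g₂, h12⟩ := Pool.Agent.Helper13.MT.br2 hab hB
    exact ⟨1, by simp, fun Ω _ _ s σ hσ hs p hp => Pool.Agent.Helper13.MW.main_of_freePlane Tw hφ g₁ g₂ (Tw.χ g₁) (Tw.χ g₂)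
      (Subgroup.subset_closure (by simp)) (Subgroup.subset_closure (by simp)) h12 Ω s σ hσ hs p hp⟩
  have hA := Pool.Agent.Helper13.MT.br1 hab hfd
  by_cases hG : Finite G
  · exact ⟨0, by simp, fun Ω _ _ s σ hσ hs p hp => tendsto_finite s σ hσ hs p hp⟩
  have hinf : Infinite G := not_finite_iff_infinite.mp hG
  refine ⟨1 / 2, by simp, fun Ω _ _ s σ hσ hs p hp => ?_⟩
  have hup : ∀ ε : ℝ, 0 < ε → ∃ C : ℝ, 0 < C ∧ ∀ n : ℕ, 1 ≤ n → elw s p n ≤ C * (n : ℝ) ^ (1 / 2 + ε) :=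
    fun ε hε => Pool.Agent.Helper74.MW.elw_upper s σ hσ hs p hp hab hA hB ε hε
  have hlow : ∃ c : ℝ, 0 < c ∧ ∀ n : ℕ, 1 ≤ n → c * Real.sqrt n ≤ elw s p n := by
    by_cases hab' : Finite (Abelianization G)
    · exact sqrt_lower_of_finite_abelianization s σ hσ hs p hp hab hab' hinf
    · obtain ⟨f, hf⟩ := Pool.Agent.Helper13.MT.exists_hom (not_finite_iff_infinite.mp hab')
      exact Pool.Agent.Helper74.MW.elw_lower s σ hσ hs p hp f hf
  obtain ⟨c, hc, hlow⟩ := hlow
  exact Pool.Agent.Helper13.MT.tendsto_half _ c hc hlow hup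

/-- every finitely presented metabelian group has a speed exponent `0`, `1/2` or `1`; every step law, every word metric -/
theorem metabelian (G : Type) [Group G] [Group.IsFinitelyPresented G]
    (hab : ∀ a ∈ commutator G, ∀ b ∈ commutator G, a * b = b * a) :
    ∃ β : ℝ, (β = 0 ∨ β = 1 / 2 ∨ β = 1) ∧
      ∀ (S : Finset G), Subgroup.closure (S : Set G) = ⊤ →
      ∀ (μ : G →₀ ℝ), (∀ g, 0 ≤ μ g) → (μ.sum fun _ a => a) = 1 → (∀ g, μ g⁻¹ = μ g) →
        Subgroup.closure (μ.support : Set G) = ⊤ →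
        Filter.Tendsto (fun n : ℕ => Real.log (expLen (S : Set G) μ n) / Real.log n) Filter.atTop (nhds β) := by
  obtain ⟨β, hβ, h⟩ := metabelian_elw G hab
  exact ⟨β, hβ, fun S hS μ h0 h1 hsymm hgen => tendsto_expLen β h S hS μ h0 h1 hsymm hgen⟩

/-- finitely generated groups whose derived quotient has Krull dimension at least two in some prime characteristic:
the speed exponent of every walk is one -/
theorem thick (G : Type) [Group G] [Group.FG G] (h : ¬ ThinModP G)
    (S : Finset G) (hS : Subgroup.closure (S : Set G) = ⊤)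
    (μ : G →₀ ℝ) (h0 : ∀ g, 0 ≤ μ g) (h1 : (μ.sum fun _ a => a) = 1) (hsymm : ∀ g, μ g⁻¹ = μ g)
    (hgen : Subgroup.closure (μ.support : Set G) = ⊤) :
    Filter.Tendsto (fun n : ℕ => Real.log (expLen (S : Set G) μ n) / Real.log n) Filter.atTop (nhds 1) := by
  obtain ⟨K, _, Tw, hφ, g₁, g₂, h12⟩ := twisted_of_not_thin h
  exact tendsto_expLen 1 (fun Ω _ _ s σ hσ hs p hp => Pool.Agent.Helper13.MW.main_of_freePlane Tw hφ g₁ g₂ (Tw.χ g₁) (Tw.χ g₂)
      (Subgroup.subset_closure (by simp)) (Subgroup.subset_closure (by simp)) h12 Ω s σ hσ hs p hp) S hS μ h0 h1 hsymm hgen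

end Pool.Agent.Helper74.MX
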